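import Pool.Agent.Lib.helper7.CoHopf

set_option autoImplicit false

namespace Pool.Agent.Results.MP_ce3880_al.ExtensionFG

open Pool.Agent.Lib.helper7.CoHopf

/-- A finitely generated group that is not co-hopfian, with a co-hopfian subgroup of index 2. -/
theorem result : ∃ (G : Type) (_ : Group G) (H : Subgroup G), Group.FG G ∧ H.index = 2 ∧
    (∀ f : H →* H, Function.Injective f → Function.Surjective f) ∧
    ¬ (∀ f : G →* G, Function.Injective f → Function.Surjective f) := by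
  have hi : T.index = 2 := by
    rw [Subgroup.index_eq_two_iff]
    refine ⟨⟨0, 0, 1, 0, 1⟩, fun x => ?_⟩
    simp only [mem_T, mul_e, mul_n, Int.negOnePow_add, mul_one, Int.negOnePow_one]
    rcases Int.units_eq_one_or x.e with h1 | h1 <;>
      rcases Int.units_eq_one_or x.n.negOnePow with h3 | h3 <;> simp [h1, h3]
  refine ⟨G, inferInstance, T, ?_, hi, cohopf, fun h => φ_not_surj (h φ φ_inj)⟩
  refine Group.fg_iff.2 ⟨{b 0, t, a, c, ⟨0, 0, 1, 0, 1⟩}, ?_, Set.toFinite _⟩
  set K := Subgroup.closure ({b 0, t, a, c, ⟨0, 0, 1, 0, 1⟩} : Set G)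
  have m : ∀ x ∈ ({b 0, t, a, c, ⟨0, 0, 1, 0, 1⟩} : Set G), x ∈ K :=
    fun x hx => Subgroup.subset_closure hx
  have hT : T ≤ K := gen K (b_of K 0 (m _ (by simp)) (m _ (by simp))) (m _ (by simp))
    (m _ (by simp)) (m _ (by simp))
  rw [eq_top_iff]
  intro x _
  by_cases hx : x ∈ T
  · exact hT hx
  · have : x * ⟨0, 0, 1, 0, 1⟩ ∈ T :=
      (Subgroup.mul_mem_iff_of_index_two hi).2 (iff_of_false hx (by simp [mem_T]))
    simpa using K.mul_mem (hT this) (K.inv_mem (m ⟨0, 0, 1, 0, 1⟩ (by simp)))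

end Pool.Agent.Results.MP_ce3880_al.ExtensionFG
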